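import Pool.Agent.Q19.SU.FinN

/-!
# Uniformity for ALL primes at once, for almost all invariants of ALL heights, with an explicit criterion

Let `K` be a number field of degree `d` (for instance `ℚ`). The invariants `j ≠ 0, 1728` in `K`, of all
heights, are ordered by the product `radical j` of the norms of the primes (not dividing six) at which
`j` reduces to `0`, `1728` or `∞`; there are `X ^ (2 / 3 + o(1))` with `radical j ≤ X`. All but a
proportion `X ^ (-ν)` of them have the following property `LargeImage t j`, for EVERY elliptic curve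
`E` over `K` of invariant `j` (all twists): the image of `Gal(K̄/K)` in `Aut(E[n])` contains all
automorphisms of determinant one

* for EVERY prime `n`, without exception (`2`, `3`, … and arbitrarily large primes);
* for every `n`, prime or not, with `n ^ d ≤ H(j) ^ (1 - t)`;
* for every `n` which is prime to one of the simple poles of `j` (the primes not dividing six at
  which `j` has a pole of order one).

Explicit criterion: the property holds for every `j` with `log H(j) ≥ 4 d (39 + log (8 d + 1))` for which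
the product of the norms of the simple poles is at least `H(j) ^ (1 - η)`, if `η ≤ 1 / 4` and `η < t`.

The proof is in `Pool/Agent/Q19/SU`: at a simple pole the inertia group acts on the torsion by
unipotent automorphisms (up to a sign) without any assumption on the residue characteristic; a stable
line would give, by isogenies and heights, `∑ log N(simple poles) ≤ (1/2 + small) log H(j)`; unipotent
elements without a common line generate everything of determinant one; the levels `p ^ k` and
composite levels follow.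
-/

set_option autoImplicit false

open NumberField IsDedekindDomain
open scoped Classical

namespace Pool.Agent.Results.MP_cda23d_nt.AllInvariantsAllPrimes

/-- The curve `y² = x³ + Ax + B` over `K`. -/
def curve {K : Type} [Field K] (A B : K) : WeierstrassCurve K := ⟨0, 0, 0, A, B⟩

/-- The group of its points over the algebraic closure of `K`. -/
abbrev Points {K : Type} [Field K] (A B : K) : Type :=
  ((curve A B).baseChange (AlgebraicClosure K)).toAffine.Point

/-- The action of an automorphism `σ` of the algebraic closure over `K` on the points. -/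
noncomputable def galois {K : Type} [Field K] (A B : K)
    (σ : AlgebraicClosure K ≃ₐ[K] AlgebraicClosure K) : Points A B →+ Points A B :=
  WeierstrassCurve.Affine.Point.map (σ : AlgebraicClosure K →ₐ[K] AlgebraicClosure K)

/-- The invariant of `y² = x³ + Ax + B`. -/
noncomputable def jInvariant {K : Type} [Field K] (A B : K) : K :=
  6912 * A ^ 3 / (4 * A ^ 3 + 27 * B ^ 2)

/-- the product of the norms of the primes not dividing six at which `j` reduces to `0`, `1728` or
`∞` -/
noncomputable def radical {K : Type} [Field K] [NumberField K] (j : K) : ℝ :=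
  ∏ᶠ v ∈ {v : HeightOneSpectrum (𝓞 K) | v.valuation K 6 = 1 ∧
    (v.valuation K j ≠ 1 ∨ v.valuation K (j - 1728) ≠ 1)}, (Ideal.absNorm v.asIdeal : ℝ)

/-- the invariants `j ≠ 0, 1728`, of whatever height, with `radical j ≤ X` -/
def Invariants (K : Type) [Field K] [NumberField K] (X : ℝ) : Set K :=
  {j | j ≠ 0 ∧ j ≠ 1728 ∧ radical j ≤ X}

/-- the simple poles of `j`: the primes not dividing six at which `j` has a pole of order one -/
def SimplePoles {K : Type} [Field K] [NumberField K] (j : K) : Set (HeightOneSpectrum (𝓞 K)) :=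
  {v | v.valuation K 6 = 1 ∧ WithZero.log (v.valuation K j) = 1}

/-- The image of the Galois group in the automorphism group of `E[n]` contains all automorphisms of
determinant one: `E[n]` has a basis `P`, `Q` such that every matrix `(a, b; c, d)` of determinant one
modulo `n` is the matrix of some `σ`. -/
def ContainsSL {K : Type} [Field K] (A B : K) (n : ℕ) : Prop :=
  ∃ P Q : Points A B, (n • P = 0 ∧ n • Q = 0 ∧
    (∀ R : Points A B, n • R = 0 → ∃ a b : ℤ, R = a • P + b • Q) ∧
    ∀ a b : ℤ, a • P + b • Q = 0 → (n : ℤ) ∣ a ∧ (n : ℤ) ∣ b) ∧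
    ∀ a b c d : ℤ, (n : ℤ) ∣ a * d - b * c - 1 →
      ∃ σ : AlgebraicClosure K ≃ₐ[K] AlgebraicClosure K,
        galois A B σ P = a • P + c • Q ∧ galois A B σ Q = b • P + d • Q

/-- For every curve `y² = x³ + Ax + B` of invariant `j` the image contains all automorphisms of
determinant one of `E[n]` for every prime `n`, for every `n` with `n ^ [K : ℚ] ≤ H(j) ^ (1 - t)`, and
for every `n` which is prime to a simple pole of `j`. -/
def LargeImage {K : Type} [Field K] [NumberField K] (t : ℝ) (j : K) : Prop :=
  ∀ A B : K, 4 * A ^ 3 + 27 * B ^ 2 ≠ 0 → jInvariant A B = j → ∀ n : ℕ, 1 ≤ n →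
    (n.Prime ∨ (n : ℝ) ^ Module.finrank ℚ K ≤ Height.mulHeight₁ j ^ (1 - t) ∨
      ∃ v ∈ SimplePoles j, v.valuation K (n : K) = 1) → ContainsSL A B n

theorem inv_eq (K : Type) [Field K] [NumberField K] (X : ℝ) :
    Invariants K X = Pool.Agent.Q19.JL.Iv K X := by
  ext j
  constructor
  · rintro ⟨h0, h1, h2⟩
    refine ⟨h0, h1, ?_⟩
    rw [← Pool.Agent.Q19.JL.rad_eq h0 h1]
    exact h2
  · rintro ⟨h0, h1, h2⟩
    refine ⟨h0, h1, ?_⟩
    rw [← Pool.Agent.Q19.JL.rad_eq h0 h1] at h2
    exact h2

theorem large_of {K : Type} [Field K] [NumberField K] {t : ℝ} {j : K} (h0 : j ≠ 0)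
    (h : Pool.Agent.Q19.SU.AllSLn t j) : LargeImage t j := by
  intro A B hD hj n hn hlev
  refine Pool.Agent.Q19.SU.hasSLn_nat (h A B hD hj n hn ?_)
  rcases hlev with hp | hle | ⟨v, hv, hnv⟩
  · exact Or.inl hp
  · exact Or.inr (Or.inl (Pool.Agent.Q19.SU.lev_of hn hle))
  · exact Or.inr (Or.inr ⟨v, (Pool.Agent.Q19.SU.sp_iff h0 v).1 hv,
      (Pool.Agent.Q19.SU.val_iff v (by omega)).1 hnv⟩)

theorem const_le (n : ℕ) (hn : 0 < n) :
    Pool.Agent.Q19.SU.CA n < n * (39 + Real.log (8 * n + 1)) := by
  have l2 : Real.log 2 < 0.6931471808 := Real.log_two_lt_d9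
  have h1 : Real.log 6912 ≤ 13 * Real.log 2 := by
    rw [← Real.log_rpow (by norm_num)]
    exact Real.log_le_log (by norm_num) (by norm_num)
  have h2 : Real.log 250 ≤ 8 * Real.log 2 := by
    rw [← Real.log_rpow (by norm_num)]
    exact Real.log_le_log (by norm_num) (by norm_num)
  have h3 : Real.log ((4 * 6912 * 46656 : ℕ) : ℝ) ≤ 31 * Real.log 2 := by
    rw [← Real.log_rpow (by norm_num)]
    exact Real.log_le_log (by norm_num) (by norm_num)
  have hn' : (0 : ℝ) < n := by exact_mod_cast hn
  unfold Pool.Agent.Q19.SU.CA Pool.Agent.Q19.SU.C5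
  have h4 : 1 / 2 * Real.log 6912 + (Real.log 250 + Real.log ((4 * 6912 * 46656 : ℕ) : ℝ)) +
      10 * Real.log 2 < 39 := by
    norm_num at h3 ⊢
    linarith
  have h5 := mul_lt_mul_of_pos_left h4 hn'
  linarith

/-- **Theorem.** Let `K` be a number field. (1) There are `X ^ (2 / 3 + o(1))` invariants, of all
heights, with `radical j ≤ X`. (2) For every `t > 0` all but a power-saving proportion of them have the
property `LargeImage t j`. (3) For `η ≤ 1 / 4`, `η < t`, every `j ≠ 0, 1728` with
`log H(j) ≥ 4 d (39 + log (8 d + 1))`, `d = [K : ℚ]`, whose simple poles carry the proportion `1 - η` of the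
height has the property `LargeImage t j`. -/
theorem result (K : Type) [Field K] [NumberField K] :
    (∀ δ : ℝ, 0 < δ → ∃ X₀ : ℝ, ∀ X : ℝ, X₀ ≤ X → (Invariants K X).Finite ∧
      X ^ (2 / 3 - δ) ≤ ((Invariants K X).ncard : ℝ) ∧
      ((Invariants K X).ncard : ℝ) ≤ X ^ (2 / 3 + δ)) ∧
    (∀ t : ℝ, 0 < t → ∃ ν X₀ : ℝ, 0 < ν ∧ ∀ X : ℝ, X₀ ≤ X →
      (({j | j ∈ Invariants K X ∧ ¬ LargeImage t j} : Set K).ncard : ℝ) ≤
        X ^ (-ν) * (Invariants K X).ncard) ∧
    ∀ (j : K) (η t : ℝ), j ≠ 0 → j ≠ 1728 → η ≤ 1 / 4 → η < t →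
      4 * (Module.finrank ℚ K * (39 + Real.log (8 * Module.finrank ℚ K + 1))) ≤
        Height.logHeight₁ j →
      (1 - η) * Height.logHeight₁ j ≤
        ∑ᶠ v ∈ SimplePoles j, Real.log (Ideal.absNorm v.asIdeal : ℝ) →
      LargeImage t j := by
  refine ⟨fun δ hδ => ?_, fun t ht => ?_, ?_⟩
  · obtain ⟨X1, hX1, h1⟩ := Pool.Agent.Q19.JL.Iv_upper K δ hδ
    obtain ⟨X2, hX2, h2⟩ := Pool.Agent.Q19.JL.Iv_lower K δ hδ
    refine ⟨max X1 X2, fun X hX => ?_⟩
    rw [inv_eq]
    exact ⟨Pool.Agent.Q19.JL.Iv_fin K (hX1.trans ((le_max_left _ _).trans hX)),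
      h2 X ((le_max_right _ _).trans hX), h1 X ((le_max_left _ _).trans hX)⟩
  · obtain ⟨ν, X₀, hν, -, h⟩ := Pool.Agent.Q19.SU.n_prop K t 0 ht
    refine ⟨ν, X₀, hν, fun X hX => ?_⟩
    rw [inv_eq]
    exact h X hX _ (fun j hj => hj.1) fun j hj hcon => hj.2 (large_of hj.1.1 hcon.1)
  · intro j η t h0 h1 hη hηt hH hsp
    refine large_of h0 (Pool.Agent.Q19.SU.all_n h0 h1 hη hηt ?_ ?_)
    · rw [← Pool.Agent.Q19.SU.sp_sum h0, ← Pool.Agent.Q19.SU.logH]
      exact hsp
    · rw [← Pool.Agent.Q19.SU.logH]
      have := const_le (Module.finrank ℚ K) Module.finrank_pos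
      linarith

end Pool.Agent.Results.MP_cda23d_nt.AllInvariantsAllPrimes
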