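import Pool.Agent.N733.TG.K
import Pool.Agent.Results.MP_cda23d_nt.InvariantWindows

/-!
# Uniformity for all elliptic curves with invariant of height near functions of the values of multiplicative functions

Let `f` be a positive multiplicative function of at most polynomial growth such that `f p ≤ M p` for the large primes `p`,
with different values at different large primes; for example Euler's function or the sum of the divisors. Let `α > 0`, `D ≥ 1`
(an arbitrary power) and `θ < 1`. There are `P` and `c > 0`, which depend on `D` and `θ` only, such that for every `U`, for all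
`m ≤ N` but `N / (log N)^U`, for ALL rational numbers `j` of height `H(j)` with `|H(j) - α f(m)^D| ≤ f(m)^θ`, ALL elliptic
curves `E` over `ℚ` with invariant `j` and ALL primes `p` with `P ≤ p ≤ exp (c √(log H(j)))` the order of the image of
`Gal(ℚ̄/ℚ)` in `Aut(E[p])` is divisible by `p`. More generally `G (f m)` takes the place of `α f(m)^D`, where `G` is any
function with steps bounded below by a positive constant and growth at most `v^D`. The values of `f` are in general taken with
very large multiplicities, and so this does not follow from the size of the exceptional set.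

Its size is bounded by the count of the starting file `InvariantWindows` of this problem.
-/

set_option autoImplicit false

open WeierstrassCurve

namespace Pool.Agent.Results.MP_cda23d_nt.MultiplicativeValues

open Pool.Agent.N733.TG (LM Expanding lm_totient lm_sigma keep_windows expanding_pow)
open InvariantWindows (curve invariant Points galois OrderDivisible ht Exc count)

/-- **Uniformity near the values of multiplicative functions.** For all `D ≥ 1` and `0 ≤ θ < 1` there are `P` and `c > 0` such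
that for all `f` multiplicative and positive, of at most polynomial growth, with `f p ≤ M p` at the large primes and injective
there, all `G` with steps `≥ a > 0` and growth at most `v^D`, and all `U`: for all large `N` and all `m ≤ N` but
`N / (log N)^U`, for ALL rational numbers `A, B` with `4A³ + 27B² ≠ 0` such that the height `H` of the invariant of
`y² = x³ + Ax + B` satisfies `|H - G (f m)| ≤ f(m) ^ θ` and ALL primes `p` with `P ≤ p ≤ exp (c √(log H))` the order of the
image of the Galois group in `Aut(E[p])` is divisible by `p`. Euler's function and the sum of the divisors are examples of such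
functions `f`, and `α v^D` with `α > 0`, `D ≥ 1` is an example of `G`. -/
theorem result :
    (∀ D θ : ℝ, 1 ≤ D → 0 ≤ θ → θ < 1 → ∃ (P : ℕ) (c : ℝ), 0 < c ∧
      ∀ f : ℕ → ℕ, LM f → ∀ G : ℕ → ℝ, Expanding G D → ∀ U : ℕ, ∃ N₀ : ℕ, ∀ N : ℕ, N₀ ≤ N →
      ({m : ℕ | 1 ≤ m ∧ m ≤ N ∧ ¬ ∀ A B : ℚ, 4 * A ^ 3 + 27 * B ^ 2 ≠ 0 →
          |(ht (invariant A B) : ℝ) - G (f m)| ≤ (f m : ℝ) ^ θ →
            ∀ p : ℕ, p.Prime → P ≤ p → (p : ℝ) ≤ Real.exp (c * Real.sqrt (Real.log (ht (invariant A B) : ℝ))) →
              OrderDivisible A B p}.ncard : ℝ) ≤ N / Real.log N ^ U) ∧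
    (LM Nat.totient ∧ LM (fun m => ∑ d ∈ m.divisors, d)) ∧
    ∀ α D : ℝ, 0 < α → 1 ≤ D → Expanding (fun v => α * (v : ℝ) ^ D) D := by
  refine ⟨fun D θ hD hθ hθ1 => ?_, ⟨lm_totient, lm_sigma⟩, fun α D hα hD => expanding_pow hα hD⟩
  obtain ⟨ε, hε⟩ : ∃ ε, ε = (1 - θ) / (2 * D) := ⟨_, rfl⟩
  have hε0 : 0 < ε := by
    rw [hε]
    apply div_pos (by linarith) (by linarith)
  have hεD : D * ε = (1 - θ) / 2 := by
    rw [hε]
    field_simp
  obtain ⟨P, c, hc, hcount⟩ := count ε hε0
  refine ⟨P, c, hc, fun f hf G hG U => ?_⟩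
  obtain ⟨N₀, hN₀⟩ := keep_windows (Exc P c) (fun j => (ht j : ℝ)) hf hG (s := ε) (κ := θ) hε0.le hθ
    (by rw [hεD]; linarith) hcount U
  refine ⟨N₀, fun N hN => le_trans ?_ (hN₀ N hN)⟩
  have hfin : {m : ℕ | 1 ≤ m ∧ m ≤ N ∧ ∃ j ∈ Exc P c, |(ht j : ℝ) - G (f m)| ≤ (f m : ℝ) ^ θ}.Finite := by
    apply (Set.finite_Icc 1 N).subset
    intro m hm
    exact ⟨hm.1, hm.2.1⟩
  have hsub : {m : ℕ | 1 ≤ m ∧ m ≤ N ∧ ¬ ∀ A B : ℚ, 4 * A ^ 3 + 27 * B ^ 2 ≠ 0 →
          |(ht (invariant A B) : ℝ) - G (f m)| ≤ (f m : ℝ) ^ θ →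
            ∀ p : ℕ, p.Prime → P ≤ p → (p : ℝ) ≤ Real.exp (c * Real.sqrt (Real.log (ht (invariant A B) : ℝ))) →
              OrderDivisible A B p} ⊆
      {m : ℕ | 1 ≤ m ∧ m ≤ N ∧ ∃ j ∈ Exc P c, |(ht j : ℝ) - G (f m)| ≤ (f m : ℝ) ^ θ} := by
    rintro m ⟨h1, h2, h3⟩
    push Not at h3
    obtain ⟨A, B, hAB, hw, p, hp, hPp, hpc, hno⟩ := h3
    exact ⟨h1, h2, invariant A B, ⟨A, B, hAB, rfl, p, hp, hPp, hpc, hno⟩, hw⟩
  exact_mod_cast Set.ncard_le_ncard hsub hfin

end Pool.Agent.Results.MP_cda23d_nt.MultiplicativeValues
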