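import Pool.Agent.N539.OB.Mob2

/-!
# MP_cda23d_nt: one-parameter families of elliptic curves and random orbits of groups of Moebius transformations

Let `f = F / G` be any non-constant rational function over `ℚ` (`F`, `G` integral polynomials, coprime over `ℚ`) and
`d = max (deg F) (deg G)` its degree; consider the elliptic curves with `j`-invariant `f(t)`.  Let `s_0, …, s_m` be
matrices in `SL₂(ℤ)` which generate `SL₂(ℤ / q)` for all `q` prime to some `q₀` (by strong approximation this holds for
every finite family that generates a non-elementary subgroup, possibly of infinite index; this fact is not used here).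
Start from any integral vector `v ≠ 0` and apply independent random matrices of the family: the ratios `t = x / y` form a
random orbit of Moebius transformations.  Almost surely, for all times outside a set of density zero, the following holds:
for EVERY number field `L`, EVERY elliptic curve `y² = x³ + a x + b` over `L` with `j`-invariant `f(t)`, and EVERY prime
`p ≥ 5` with `p > d [L : ℚ]`, some element of the Galois group of `L` acts on the `p`-torsion with order `p`.

For `L = ℚ` this excludes the image in the normaliser of a Cartan subgroup for all `p > max (d, 3)`; with the quoted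
theorem of Mazur, Bilu-Parent-Rebolledo and others (not used here) the representation of every such curve over `ℚ` is
surjective for all `p > max (37, d)`.

The orbit has only `N` members up to time `N`, and these have numerators and denominators of exponential size, so the
counts of the `t` by height do not apply to it.

Proof.  If `G` is not constant let `h` be an irreducible factor of `G` over `ℤ`, exactly of order `m` in `G`.  If for a
prime `q` (outside a finite set) the homogeneous form of `h` at `(x, y)` is exactly divisible by `q` and `q ∤ y`, then `q`
has exponent `-m` in `f(x / y)`; for a place `w` of `L` above `q` with ramification index `e` one has `w(j) = - m e`, and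
`0 < m e ≤ d [L : ℚ] < p` is not divisible by `p`; by the local theory `Pool.Agent.Y673.Loc` (helper673) there is an
element of order `p`.  For every `q` with a place of degree one in `ℚ[X] / (h)` the proportion of the classes modulo `q²`
with this property is at least `1 / (4 q)`, and the sum of these `1 / q` diverges (`Pool.Agent.Helper932`), so the
exceptional set is contained in a set of Haar measure zero in the product of the `ℤ_q`.  If `G` is constant, a prime
exactly dividing `y` does the same.  The random orbit almost never visits such a set (library `Pool.Agent.N24.RW` of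
helper24 with helpers 543, 195, 300, 765, 340, 123).
-/

set_option autoImplicit false

open WeierstrassCurve NumberField Polynomial
open scoped Classical

namespace Pool.Agent.Results.MP_cda23d_nt.RandomMoebiusOrbits

open Filter Topology MeasureTheory
open Pool.Agent.N24.RW (Walk orb words)

section
variable {L : Type} [Field L]

/-- The curve `y² = x³ + A x + B` over `L`. -/
def curve (A B : L) : WeierstrassCurve L := ⟨0, 0, 0, A, B⟩

/-- The group of its points over the algebraic closure of `L`. -/
abbrev Points (A B : L) : Type := ((curve A B).baseChange (AlgebraicClosure L)).toAffine.Point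

/-- The action of an `L`-automorphism `σ` of the algebraic closure on the points. -/
noncomputable def galois (A B : L) (σ : AlgebraicClosure L ≃ₐ[L] AlgebraicClosure L) :
    Points A B →+ Points A B :=
  WeierstrassCurve.Affine.Point.map (σ : AlgebraicClosure L →ₐ[L] AlgebraicClosure L)

/-- Some `σ` acts on the `p`-torsion with order `p`: its `p`-th power acts trivially on the `p`-torsion, and `σ` does
not. -/
def OrderDivisible (A B : L) (p : ℕ) : Prop :=
  ∃ σ : AlgebraicClosure L ≃ₐ[L] AlgebraicClosure L,
    (∀ P : Points A B, p • P = 0 → galois A B (σ ^ p) P = P) ∧
    ∃ P : Points A B, p • P = 0 ∧ galois A B σ P ≠ P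

/-- The `j`-invariant of `y² = x³ + A x + B`. -/
noncomputable def jInvariant (A B : L) : L := 6912 * A ^ 3 / (4 * A ^ 3 + 27 * B ^ 2)

end

/-- `y ≠ 0`, `G (x / y) ≠ 0`, and for every number field `L`, every elliptic curve `y² = x³ + a x + b` over `L` with
invariant `F (x / y) / G (x / y)` and every prime `p ≥ 5` larger than `max (deg F) (deg G) [L : ℚ]`, some `σ` in the
Galois group of `L` acts on the `p`-torsion with order `p`. -/
def Uniform (F G : ℤ[X]) (x y : ℤ) : Prop :=
  y ≠ 0 ∧ aeval ((x : ℚ) / (y : ℚ)) G ≠ 0 ∧
    ∀ (L : Type) [Field L] [NumberField L] (a b : L), 4 * a ^ 3 + 27 * b ^ 2 ≠ 0 →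
      jInvariant a b = algebraMap ℚ L (aeval ((x : ℚ) / (y : ℚ)) F / aeval ((x : ℚ) / (y : ℚ)) G) →
      ∀ p : ℕ, p.Prime → 5 ≤ p → max F.natDegree G.natDegree * Module.finrank ℚ L < p → OrderDivisible a b p

/-- **Random orbits of Moebius transformations.** -/
theorem result (F G : ℤ[X]) (hG : G ≠ 0)
    (hFG : IsCoprime (F.map (Int.castRingHom ℚ)) (G.map (Int.castRingHom ℚ)))
    (hd : 0 < max F.natDegree G.natDegree) (W : Walk (Fin 2)) (v : Fin 2 → ℤ) (hv : v ≠ 0) :
    ∀ᵐ w ∂(words W.m), Tendsto (fun N : ℕ => (({n : ℕ | n < N ∧
      ¬ Uniform F G (orb W v w n 0) (orb W v w n 1)}.ncard : ℕ) : ℝ) / (N : ℝ)) atTop (𝓝 0) :=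
  Pool.Agent.N539.OB.moebius F G hG hFG hd W v hv

end Pool.Agent.Results.MP_cda23d_nt.RandomMoebiusOrbits
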