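import Mathlib
import Pool.Agent.N609.TS.Main2

/-!
# MP_cda23d_nt: the adelic images of almost all elliptic curves of a thin sequence

Let `P`, `Q` be generalised polynomials (finite sums of real powers with real coefficients) with
different leading exponents which are positive and not integers and have positive coefficients, for
example `P(t) = t ^ √2`, `Q(t) = t ^ π + t ^ (1/2)`.  Consider the sequence of the elliptic curves
`E_n : y² = x³ + ⌊P(n)⌋ x + ⌊Q(n)⌋` over `ℚ`.

**Theorem.**  For all `n` outside ONE set of natural density zero, and for all primes `n` outside a set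
of relative density zero, and for EVERY `m ≥ 1`:

* the image of `Gal(ℚ̄/ℚ)` in `Aut(E_n[m])` contains all matrices of `SL₂(ℤ/m)` if `m` is odd, and all
  matrices of `SL₂(ℤ/m)` whose reduction modulo `2` has order `1` or `3` if `m` is even;
* it contains `SL₂(ℤ/m)` as soon as some prime `q ≥ 5` which divides `4⌊P(n)⌋³ + 27⌊Q(n)⌋²` exactly
  once and not `⌊P(n)⌋` (a simple pole of the invariant) does not divide `m`, and there are such `q`; so
  it contains `SL₂(𝔽_p)` for EVERY prime `p`, `2` and `3` included.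

The index two is optimal: the square root of the discriminant is in a cyclotomic field, so `SL₂(ℤ/m)` is
not contained in the image for some `m` (Serre).  As the determinant is the cyclotomic character (this
is not part of the Lean theorem), `E_n` is a Serre curve for these `n`: the image in `GL₂` of the
profinite integers has index two, and the image in `GL₂(𝔽_p)` is everything for every prime `p`.

Only about `N` of the `N ^ (c + d)` curves of this size occur in the sequence, so that the theorems on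
boxes (Duke; Jones for Serre curves) say nothing about it.

Proof.  For the primes `p ≥ 5` see the hand-in `ThinSequences` of MP_d87173_nt.  For `p = 2` and `p = 3`:
the polynomials `F(t, Y)` of the points of order two and three over the line of invariants are
irreducible over `ℚ(t)` (reduction modulo `5`), so by Hilbert, Jordan, Chebotarev and Turan's sieve they
have no root at `t = j(E_n)` for almost all `n`, and no line of `E_n[2]`, `E_n[3]` is stable.  By Turan's
sieve with moduli `q²` almost all `n` have three different simple poles `q₁, q₂, q₃ ≥ 5` of `j(E_n)` with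
`3 ∤ q₁ - 1` and `q₂ ≡ 3` modulo `4`.  The local theory at a simple pole (starting library
`Pool.Agent.Q19.SU`) gives `SL₂(ℤ/m)` for all `m` prime to `q_i`.  All levels: let `m = n m'`, `n` and
`m'` coprime and `n` prime to `q₁q₂`.  Commutators of elements `σ`, `τ` of the Galois group, where `σ`
acts trivially on the torsion of order prime to `n q₁` and `τ` on the torsion of order prime to `n q₂`,
act trivially on `E[m']`; this gives `SL₂(ℤ/n)` if `n` is prime to `6` because this group is perfect.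
For powers of `3`: if `σ` acts trivially outside of the `3`- and `q₁`-parts, then `σ ^ e`,
`e = φ(q₁ ^ j)`, has determinant one on `E[q₁ ^ j]` and can be corrected by an element of
`SL₂(ℤ/q₁ ^ j)`, and `e` is prime to `3`.  For powers of two the same with `q₂` gives the squares of the
elementary matrices, as `e` is not divisible by `4`, and with the commutators this gives all matrices
whose reduction modulo `2` is an even permutation.
-/

set_option autoImplicit false

open WeierstrassCurve

namespace Pool.Agent.Results.MP_cda23d_nt.ThinSequencesSerreCurves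

/-- The curve `y² = x³ + Ax + B` over `ℚ`. -/
def curve (A B : ℚ) : WeierstrassCurve ℚ := ⟨0, 0, 0, A, B⟩

open scoped Classical in
/-- The group of its points over the algebraic closure of `ℚ`. -/
abbrev Points (A B : ℚ) : Type := ((curve A B).baseChange (AlgebraicClosure ℚ)).toAffine.Point

open scoped Classical in
/-- The action of an automorphism `σ` of the algebraic closure on the points. -/
noncomputable def galois (A B : ℚ) (σ : AlgebraicClosure ℚ ≃ₐ[ℚ] AlgebraicClosure ℚ) :
    Points A B →+ Points A B :=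
  WeierstrassCurve.Affine.Point.map (σ : AlgebraicClosure ℚ →ₐ[ℚ] AlgebraicClosure ℚ)

open scoped Classical in
/-- The points `P` and `Q` form a basis of the `m`-torsion. -/
def IsBasis (A B : ℚ) (m : ℕ) (P Q : Points A B) : Prop :=
  (m : ℤ) • P = 0 ∧ (m : ℤ) • Q = 0 ∧
    (∀ R : Points A B, (m : ℤ) • R = 0 → ∃ x y : ℤ, R = x • P + y • Q) ∧
    ∀ x y : ℤ, x • P + y • Q = 0 → (m : ℤ) ∣ x ∧ (m : ℤ) ∣ y

open scoped Classical in
/-- In some basis of the `m`-torsion every matrix `(a b; c d)` of determinant `1` modulo `m` with the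
property `X` is the matrix of some element of the Galois group of `ℚ`. -/
def Realises (A B : ℚ) (m : ℕ) (X : ℤ → ℤ → ℤ → ℤ → Prop) : Prop :=
  ∃ P Q : Points A B, IsBasis A B m P Q ∧
    ∀ a b c d : ℤ, (m : ℤ) ∣ a * d - b * c - 1 → X a b c d →
      ∃ σ : AlgebraicClosure ℚ ≃ₐ[ℚ] AlgebraicClosure ℚ,
        galois A B σ P = a • P + c • Q ∧ galois A B σ Q = b • P + d • Q

/-- The matrix is congruent modulo `2` to a matrix of order `1` or `3` of `SL₂(𝔽₂)` (for a matrix of odd
determinant: the trace is odd, or it is the identity modulo `2`). -/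
def EvenPerm (a b c d : ℤ) : Prop := Odd (a + d) ∨ (Even b ∧ Even c)

/-- The prime `q ≥ 5` is a simple pole of the invariant of `y² = x³ + Ax + B`. -/
def SimplePole (A B : ℤ) (q : ℕ) : Prop :=
  q.Prime ∧ 5 ≤ q ∧ (q : ℤ) ∣ 4 * A ^ 3 + 27 * B ^ 2 ∧ ¬ (q : ℤ) ^ 2 ∣ 4 * A ^ 3 + 27 * B ^ 2 ∧
    ¬ (q : ℤ) ∣ A

/-- `y² = x³ + Ax + B` is an elliptic curve, the image of the Galois group of `ℚ` in the automorphism
group of its `m`-torsion contains, for every `m ≥ 1`, all matrices of determinant one modulo `m` (for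
even `m`: which are even permutations modulo two), and all of them without exception if some simple
pole does not divide `m`; and there are three different simple poles. -/
def SerreImage (A B : ℤ) : Prop :=
  4 * A ^ 3 + 27 * B ^ 2 ≠ 0 ∧
    (∀ m : ℕ, 1 ≤ m → Realises A B m (fun a b c d => Odd m ∨ EvenPerm a b c d)) ∧
    (∀ m : ℕ, 1 ≤ m → (∃ q, SimplePole A B q ∧ ¬ q ∣ m) → Realises A B m (fun _ _ _ _ => True)) ∧
    (∃ q₁ q₂ q₃ : ℕ, q₁ ≠ q₂ ∧ q₁ ≠ q₃ ∧ q₂ ≠ q₃ ∧ SimplePole A B q₁ ∧ SimplePole A B q₂ ∧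
      SimplePole A B q₃) ∧
    ∀ p : ℕ, p.Prime → Realises A B p (fun _ _ _ _ => True)

/-- `c` is the largest exponent of the generalised polynomial `∑ a_x t ^ x`; it is positive and not an
integer and has a positive coefficient. -/
def Admissible (F : Finset ℝ) (a : ℝ → ℝ) (c : ℝ) : Prop :=
  c ∈ F ∧ (∀ x ∈ F, x ≤ c) ∧ 0 < c ∧ (∀ m : ℕ, c ≠ m) ∧ 0 < a c

/-- The integer part of the value at `n` of the generalised polynomial. -/
noncomputable def value (F : Finset ℝ) (a : ℝ → ℝ) (n : ℕ) : ℤ := ⌊∑ x ∈ F, a x * (n : ℝ) ^ x⌋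

/-- `E` has density zero relative to the sets `S N`. -/
def NullIn (S : ℕ → Finset ℕ) (E : Set ℕ) : Prop :=
  ∀ ε : ℝ, 0 < ε → ∃ N₀ : ℕ, ∀ N : ℕ, N₀ ≤ N →
    ({n : ℕ | n ∈ S N ∧ n ∈ E}.ncard : ℝ) ≤ ε * (S N).card

open scoped Classical in
theorem image_of {A B : ℤ} (h : Pool.Agent.N609.TS.Q.Good (A : ℚ) (B : ℚ))
    (ht : Pool.Agent.N609.TS.Tri A B) : SerreImage A B := by
  have hlev : ∀ m : ℕ, 1 ≤ m → (∃ q, SimplePole A B q ∧ ¬ q ∣ m) →
      Realises A B m (fun _ _ _ _ => True) := by
    rintro m hm ⟨q, ⟨h1, h2, h3, h4, h5⟩, h6⟩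
    obtain ⟨P, Q, hB, hA⟩ := Pool.Agent.N609.TS.Q.levels h h1 h2 h3 h4 h5 hm h6
    exact ⟨P, Q, ⟨hB.hP, hB.hQ, hB.span, hB.ind⟩, fun a b c d hdet _ => hA a b c d hdet⟩
  have ht' := ht
  obtain ⟨q₁, q₂, q₃, p₁, p₂, p₃, f₁, f₂, f₃, n₁₂, n₁₃, n₂₃, s₁, s₂, s₃, -, -⟩ := ht'
  refine ⟨by exact_mod_cast h.disc, fun m hm => ?_, hlev, ⟨q₁, q₂, q₃, n₁₂, n₁₃, n₂₃, ⟨p₁, f₁, s₁⟩,
    ⟨p₂, f₂, s₂⟩, ⟨p₃, f₃, s₃⟩⟩, fun p hp => ?_⟩
  · obtain ⟨P, Q, hB, hA⟩ := Pool.Agent.N609.TS.ser_of h ht hm
    exact ⟨P, Q, ⟨hB.hP, hB.hQ, hB.span, hB.ind⟩, hA⟩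
  · apply hlev p hp.one_le
    by_cases e : q₁ = p
    · refine ⟨q₂, ⟨p₂, f₂, s₂⟩, fun hd => n₁₂ ?_⟩
      rw [e]
      exact ((Nat.prime_dvd_prime_iff_eq p₂ hp).1 hd).symm
    · exact ⟨q₁, ⟨p₁, f₁, s₁⟩, fun hd => e ((Nat.prime_dvd_prime_iff_eq p₁ hp).1 hd)⟩

/-- **Almost all curves of a thin sequence have the largest possible adelic image.** -/
theorem result (F G : Finset ℝ) (a b : ℝ → ℝ) (c d : ℝ) (hF : Admissible F a c)
    (hG : Admissible G b d) (hcd : c ≠ d) :
    NullIn (fun N => Finset.Ioc N (2 * N)) {n | ¬ SerreImage (value F a n) (value G b n)} ∧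
    NullIn (fun N => (Finset.Ioc N (2 * N)).filter Nat.Prime)
      {n | ¬ SerreImage (value F a n) (value G b n)} := by
  obtain ⟨h1, h2⟩ := Pool.Agent.N609.TS.main2 hF hG hcd
  have hsub : {n | ¬ SerreImage (value F a n) (value G b n)} ⊆
      {n | ¬ (Pool.Agent.N609.TS.Q.Good (Pool.Agent.N609.TS.vl F a n : ℚ)
        (Pool.Agent.N609.TS.vl G b n : ℚ) ∧ Pool.Agent.N609.TS.Tri (Pool.Agent.N609.TS.vl F a n)
          (Pool.Agent.N609.TS.vl G b n))} :=
    fun n hn h => hn (image_of h.1 h.2)
  exact ⟨h1.mono hsub, h2.mono hsub⟩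

end Pool.Agent.Results.MP_cda23d_nt.ThinSequencesSerreCurves
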